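import Pool.Agent.R212.Helm4

/-!
# The integrated Lagrangian of an exterior Helmholtz field can be positive

The question asks whether `L = ½ ∫_{ℝ^d \ V} (|u|² - |∇u|²)` is negative for every radiating
solution `u` of `Δu + u = 0` outside a compact region `V` with smooth boundary (`d = 2, 3`) whose
Dirichlet or Neumann data do not vanish identically.  The answer is no for `d = 3`.

The field is the outgoing dipole `u(x) = x₂ e^{ir} (1/r² + i/r³)`, `r = |x|`.  Its Lagrangian
density is `(2x₂² - r²)/r⁶ - (3x₂² + r²)/r⁸`, so it is positive, of size `r⁻⁴`, in the directions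
near the `x₂`-axis.  The obstacle is the flat, slightly biconcave body
`x₂² ≤ (1 - s²/10¹²)(9 + 2s²)`, `s² = x₀² + x₁²`: star-shaped, with real-analytic boundary.  It
covers the directions in which the density is negative out to the distance `5·10⁵` but leaves a
region near the axis uncovered.
-/

set_option autoImplicit false

open Complex MeasureTheory Set Filter Topology Laplacian

namespace Pool.Agent.Results.MP_871f9b_an.PositiveLagrangian

/-- Three-dimensional Euclidean space. -/
abbrev E3 := EuclideanSpace ℝ (Fin 3)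

/-- `u` is a radiating solution of the Helmholtz equation with unit wavenumber in the exterior of
`V`: it is `C^∞` on an open set containing the closure of `ℝ³ \ V` (so `u` and its normal
derivative have smooth values on the boundary of `V`), it satisfies `Δu + u = 0` at every point
outside `V`, it has the far field `u(x) ~ (e^{ir}/r) f(x/r)` with a smooth `f` (only the values of
`f` on the unit sphere matter), uniformly in the direction `x/r` as `r = |x| → ∞`, and it satisfies
Sommerfeld's condition `r (∂_r u - i u) → 0`. -/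
structure IsRadiatingSolution (V : Set E3) (u : E3 → ℂ) : Prop where
  smooth : ∃ W : Set E3, IsOpen W ∧ closure Vᶜ ⊆ W ∧ ContDiffOn ℝ (⊤ : ℕ∞) u W
  helmholtz : ∀ x : E3, x ∉ V → Δ u x + u x = 0
  farField : ∃ f : E3 → ℂ, ContDiff ℝ (⊤ : ℕ∞) f ∧
    Tendsto (fun x : E3 => (‖x‖ : ℂ) * Complex.exp (-(I * ‖x‖)) * u x - f (‖x‖⁻¹ • x))
      (Bornology.cobounded E3) (𝓝 0)
  sommerfeld : Tendsto (fun x : E3 => (‖x‖ : ℂ) * (fderiv ℝ u x (‖x‖⁻¹ • x) - I * u x))
    (Bornology.cobounded E3) (𝓝 0)

/-- The Lagrangian density `|u|² - |∇u|²`, where `|∇u|² = ∑ᵢ |∂ᵢu|²`. -/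
noncomputable def lagrangianDensity (u : E3 → ℂ) (x : E3) : ℝ :=
  ‖u x‖ ^ 2 - ∑ i : Fin 3, ‖fderiv ℝ u x (EuclideanSpace.single i 1)‖ ^ 2

/-- The integrated Lagrangian `L = ½ ∫_{ℝ³ \ V} (|u|² - |∇u|²) dx`. -/
noncomputable def integratedLagrangian (V : Set E3) (u : E3 → ℂ) : ℝ :=
  (1 / 2) * ∫ x in Vᶜ, lagrangianDensity u x

/-- **Counterexample.**  There are a compact region `V = {g ≤ 0}` of `ℝ³`, star-shaped about an
interior point, with `C^∞` boundary surface `{g = 0}` (on which the derivative of `g` does not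
vanish), and a radiating solution `u` of the Helmholtz equation outside `V`, whose Dirichlet data
and whose Neumann data on the boundary are not identically zero, with absolutely integrable
Lagrangian density and with positive integrated Lagrangian. -/
theorem result : ∃ (V : Set E3) (g : E3 → ℝ) (u : E3 → ℂ),
    V = {x | g x ≤ 0} ∧ frontier V = {x | g x = 0} ∧
    ContDiff ℝ (⊤ : ℕ∞) g ∧ (∀ x ∈ frontier V, fderiv ℝ g x ≠ 0) ∧
    IsCompact V ∧ (0 : E3) ∈ interior V ∧ StarConvex ℝ (0 : E3) V ∧
    IsRadiatingSolution V u ∧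
    (∃ x ∈ frontier V, u x ≠ 0) ∧ (∃ x ∈ frontier V, fderiv ℝ u x (gradient g x) ≠ 0) ∧
    IntegrableOn (lagrangianDensity u) Vᶜ ∧
    0 < integratedLagrangian V u := by
  have hfr : frontier R212.Helm.V = {x | R212.Helm.g x = 0} := by
    apply Subset.antisymm
    · exact frontier_le_subset_eq R212.Helm.contDiff_g.continuous continuous_const
    · intro x hx
      have hx0 : R212.Helm.g x = 0 := hx
      rw [R212.Helm.isClosed_V.frontier_eq]
      refine ⟨hx0.le, fun hint => ?_⟩
      have hmax : IsLocalMax R212.Helm.g x := by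
        have := mem_interior_iff_mem_nhds.mp hint
        filter_upwards [this] with y hy
        have hy' : R212.Helm.g y ≤ 0 := hy
        rw [hx0]; exact hy'
      exact R212.Helm.fderiv_g_ne_zero x hx0 hmax.fderiv_eq_zero
  have hp : (EuclideanSpace.single 2 3 : E3) ∈ frontier R212.Helm.V := by
    rw [hfr]
    simp [R212.Helm.g]
    norm_num
  have hpn : ‖(EuclideanSpace.single 2 3 : E3)‖ ^ 2 = 9 := by simp; norm_num
  have hp0 : (EuclideanSpace.single 2 3 : E3) ≠ 0 := by
    intro h
    rw [h] at hpn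
    norm_num at hpn
  have h0int : (0 : E3) ∈ interior R212.Helm.V := by
    rw [mem_interior_iff_mem_nhds]
    have h1 : {x : E3 | R212.Helm.g x < 0} ∈ 𝓝 (0 : E3) :=
      (isOpen_lt R212.Helm.contDiff_g.continuous continuous_const).mem_nhds R212.Helm.g_zero
    exact mem_of_superset h1 fun x hx => (le_of_lt hx : R212.Helm.g x ≤ 0)
  refine ⟨R212.Helm.V, R212.Helm.g, R212.Helm.u, rfl, hfr, R212.Helm.contDiff_g, ?_,
    R212.Helm.isCompact_V, h0int, R212.Helm.starConvex_V, ?_, ?_, ?_, ?_, ?_⟩
  · intro x hx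
    rw [hfr] at hx
    exact R212.Helm.fderiv_g_ne_zero x hx
  · refine ⟨⟨{0}ᶜ, isOpen_compl_singleton, ?_, ?_⟩, ?_, ⟨fun x => ((x 2 : ℝ) : ℂ), ?_, ?_⟩, ?_⟩
    · intro x hx hx0
      rw [mem_singleton_iff] at hx0
      rw [closure_compl] at hx
      rw [hx0] at hx
      exact hx h0int
    · intro x hx
      exact (R212.Helm.contDiffAt_u x hx).contDiffWithinAt
    · intro x hx
      exact R212.Helm.helmholtz_u x (R212.Helm.not_mem_V_ne_zero x hx)
    · exact Complex.ofRealCLM.contDiff.comp (R212.Helm.contDiff_coord 2)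
    · exact R212.Helm.radiation_u
    · exact R212.Helm.sommerfeld_u
  · refine ⟨_, hp, ?_⟩
    intro h
    have h1 := R212.Helm.norm_u_sq _ hp0
    rw [h, hpn] at h1
    norm_num at h1
  · refine ⟨_, hp, ?_⟩
    have hg : gradient R212.Helm.g (EuclideanSpace.single 2 3 : E3)
        = (6 : ℝ) • EuclideanSpace.single 2 1 := by
      have h1 : HasGradientAt R212.Helm.g ((6 : ℝ) • EuclideanSpace.single 2 1)
          (EuclideanSpace.single 2 3 : E3) := by
        rw [hasGradientAt_iff_hasFDerivAt]
        refine (R212.Helm.hasFDerivAt_g _).congr_fderiv ?_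
        ext v
        simp
        norm_num
        rw [EuclideanSpace.inner_single_left]
        simp
      exact h1.gradient
    rw [hg, map_smul, R212.Helm.fderiv_u _ hp0]
    intro h
    have h2 : R212.Helm.u1 (EuclideanSpace.single 2 3 : E3) (EuclideanSpace.single 2 1) = 0 := by
      rcases smul_eq_zero.mp h with h | h
      · norm_num at h
      · exact h
    have h1 := R212.Helm.norm_u1_sq (EuclideanSpace.single 2 3 : E3) 2
    rw [h2, hpn] at h1
    simp only [norm_zero, PiLp.single_apply, if_true] at h1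
    have hpos : 0 < ((1 : ℝ) * (1 / 9) + 2 * 3 * 3 * (-(3 / 2) / 9 ^ 2)) ^ 2 := by norm_num
    have hpos2 : 0 ≤ ((1 : ℝ) * (1 / (9 * √9)) + 2 * 3 * 3 * (1 / 2 / (9 * √9) - 3 / 2 / (9 ^ 2 * √9))) ^ 2 :=
      sq_nonneg _
    have h3 : (0 : ℝ) ^ 2 = ((1 : ℝ) * (1 / 9) + 2 * 3 * 3 * (-(3 / 2) / 9 ^ 2)) ^ 2 +
      ((1 : ℝ) * (1 / (9 * √9)) + 2 * 3 * 3 * (1 / 2 / (9 * √9) - 3 / 2 / (9 ^ 2 * √9))) ^ 2 := h1
    have h4 : (0 : ℝ) ^ 2 = 0 := by norm_num
    linarith
  · refine (R212.Helm.integrableOn_D).congr_fun ?_ R212.Helm.measurableSet_V.compl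
    intro x hx
    exact (R212.Helm.dens_u x (R212.Helm.not_mem_V_ne_zero x hx)).symm
  · unfold integratedLagrangian
    apply mul_pos (by norm_num)
    rw [setIntegral_congr_fun R212.Helm.measurableSet_V.compl (g := R212.Helm.D)]
    · exact R212.Helm.integral_D_pos
    · intro x hx
      exact R212.Helm.dens_u x (R212.Helm.not_mem_V_ne_zero x hx)

end Pool.Agent.Results.MP_871f9b_an.PositiveLagrangian
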